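import Pool.Agent.Helper38.EC.Goals

/-! Packet IINT: the integral representation of `Ic`. -/

set_option autoImplicit false

open MeasureTheory Filter Topology Set Complex

namespace Pool.Agent.Helper65.EC.I_IINT

open EC237.PI

theorem cosInt (k : ℕ) : (∫ θ in (0:ℝ)..Real.pi, Real.cos θ ^ (2 * k)) =
      Real.pi * ((2 * k).factorial : ℝ) / (4 ^ k * (k.factorial : ℝ) ^ 2) ∧
    (∫ θ in (0:ℝ)..Real.pi, Real.cos θ ^ (2 * k + 1)) = 0 := by
  induction k with
  | zero => simp
  | succ k ih =>
    obtain ⟨h1, h2⟩ := ih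
    constructor
    · have e : 2 * (k + 1) = 2 * k + 2 := by ring
      rw [e, integral_cos_pow, h1, Nat.factorial_succ, Nat.factorial_succ, Nat.factorial_succ]
      simp only [Real.sin_pi, Real.sin_zero, mul_zero, sub_zero, zero_div, zero_add]
      push_cast
      have h3 : (k.factorial : ℝ) ≠ 0 := by exact_mod_cast k.factorial_ne_zero
      have h4 : (4 : ℝ) ^ k ≠ 0 := by positivity
      have h5 : (2 * (k : ℝ) + 2) ≠ 0 := by positivity
      have h6 : ((k : ℝ) + 1) ≠ 0 := by positivity
      field_simp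
      ring
    · have e : 2 * (k + 1) + 1 = (2 * k + 1) + 2 := by ring
      rw [e, integral_cos_pow, h2]
      simp

theorem thm : G_IINT := by
  intro z
  have hsum : HasSum (fun n : ℕ => ∫ θ in (0:ℝ)..Real.pi,
      (z * (Real.cos θ : ℝ)) ^ n / (n.factorial : ℂ))
      (∫ θ in (0:ℝ)..Real.pi, Complex.exp (z * (Real.cos θ : ℝ))) := by
    refine intervalIntegral.hasSum_integral_of_dominated_convergence
      (fun n _ => ‖z‖ ^ n / (n.factorial : ℝ)) ?_ ?_ ?_ ?_ ?_
    · intro n
      refine Continuous.aestronglyMeasurable ?_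
      fun_prop
    · intro n
      refine Filter.Eventually.of_forall fun θ _ => ?_
      rw [norm_div, norm_pow, norm_mul, Complex.norm_natCast, Complex.norm_real]
      refine div_le_div_of_nonneg_right ?_ (by positivity)
      refine pow_le_pow_left₀ (by positivity) ?_ n
      have := Real.abs_cos_le_one θ
      calc ‖z‖ * ‖Real.cos θ‖ ≤ ‖z‖ * 1 := mul_le_mul_of_nonneg_left this (norm_nonneg _)
        _ = ‖z‖ := mul_one _
    · exact Filter.Eventually.of_forall fun θ _ => Real.summable_pow_div_factorial _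
    · exact intervalIntegrable_const
    · refine Filter.Eventually.of_forall fun θ _ => ?_
      rw [Complex.exp_eq_exp_ℂ]
      exact NormedSpace.expSeries_div_hasSum_exp _
  have hterm : ∀ n : ℕ, (∫ θ in (0:ℝ)..Real.pi,
      (z * (Real.cos θ : ℝ)) ^ n / (n.factorial : ℂ)) =
      z ^ n / (n.factorial : ℂ) * ((∫ θ in (0:ℝ)..Real.pi, Real.cos θ ^ n : ℝ) : ℂ) := by
    intro n
    rw [← intervalIntegral.integral_ofReal, ← intervalIntegral.integral_const_mul]
    refine intervalIntegral.integral_congr fun θ _ => ?_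
    rw [mul_pow]
    push_cast
    ring
  simp only [hterm] at hsum
  have hinj : Function.Injective (fun k : ℕ => 2 * k) := by
    intro a b h
    simpa using h
  have hsum2 := (hinj.hasSum_iff (f := fun n : ℕ => z ^ n / (n.factorial : ℂ) *
      ((∫ θ in (0:ℝ)..Real.pi, Real.cos θ ^ n : ℝ) : ℂ)) (by
    intro n hn
    have hodd : ∃ k, n = 2 * k + 1 := by
      rcases Nat.even_or_odd' n with ⟨k, hk | hk⟩
      · exact absurd ⟨k, hk.symm⟩ hn
      · exact ⟨k, hk⟩
    obtain ⟨k, rfl⟩ := hodd
    rw [(cosInt k).2]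
    simp)).2 hsum
  have hpi : (Real.pi : ℂ) ≠ 0 := by exact_mod_cast Real.pi_ne_zero
  have hsum3 := hsum2.mul_left ((1 / Real.pi : ℝ) : ℂ)
  unfold Ic
  refine HasSum.tsum_eq ?_
  refine hsum3.congr_fun ?_ |> fun h => h
  intro k
  simp only [Function.comp]
  rw [(cosInt k).1]
  push_cast
  have h3 : (k.factorial : ℂ) ≠ 0 := by exact_mod_cast k.factorial_ne_zero
  have h4 : (4 : ℂ) ^ k ≠ 0 := pow_ne_zero _ (by norm_num)
  have h5 : ((2 * k).factorial : ℂ) ≠ 0 := by exact_mod_cast (2 * k).factorial_ne_zero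
  rw [div_pow, pow_mul]
  field_simp

end Pool.Agent.Helper65.EC.I_IINT
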